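import Mathlib
import Pool.Agent.Helper80.UC.Fin2

set_option autoImplicit false

open IsDedekindDomain NumberField Polynomial

namespace Pool.Agent.Helper80.QP

open Pool.Agent.Helper80.UC

/-- a place of `L` above a place of `K` -/
theorem place_above {K L : Type} [Field K] [NumberField K] [Field L] [NumberField L]
    (φ : K →+* L) (v : Pl K) :
    ∃ (w : Pl L) (e : ℕ), 0 < e ∧ ∀ x : K, o w (φ x) = e * o v x := by
  letI : Algebra K L := φ.toAlgebra
  have hφ : ∀ x : K, algebraMap K L x = φ x := fun x => rfl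
  haveI : v.asIdeal.IsMaximal := v.isPrime.isMaximal v.ne_bot
  obtain ⟨P, hPm, hP⟩ := Ideal.exists_maximal_ideal_liesOver_of_isIntegral (S := 𝓞 L) v.asIdeal
  have hPb : P ≠ ⊥ := by
    intro h
    have h1 := hP.over
    rw [h] at h1
    apply v.ne_bot
    rw [h1, Ideal.under_bot]
  let w : Pl L := ⟨P, hPm.isPrime, hPb⟩
  haveI : w.asIdeal.LiesOver v.asIdeal := hP
  refine ⟨w, v.asIdeal.ramificationIdx' w.asIdeal, ?_, ?_⟩
  · exact Nat.pos_of_ne_zero (Ideal.IsDedekindDomain.ramificationIdx'_ne_zero_of_liesOver w.asIdeal v.ne_bot)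
  · intro x
    have h1 := HeightOneSpectrum.valuation_liesOver L v w x
    simp only [o]
    rw [← hφ, ← h1, WithZero.log_pow, nsmul_eq_mul]
    ring

end Pool.Agent.Helper80.QP
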