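import Mathlib
import Pool.Agent.Helper80.QP.Above

set_option autoImplicit false

open IsDedekindDomain NumberField Polynomial

namespace Pool.Agent.Helper80.QP

open Pool.Agent.Helper80.UC

variable {K : Type} [Field K] [NumberField K]

section loc

variable {v : Pl K} {h : K → K} {e d : ℕ} {c : K} {M : Finset K}

/-- `(de-1) o(y) ∣ o(x-y) - o(y)` for distinct preperiodic points at a bad place -/
lemma bad_pair_s (H : GH v h e) (HM : GM v M d) (he : 1 ≤ e) (hd : 2 ≤ d) (hc : o v c < 0) :
    ∀ (n : ℕ) (x y : K), Pre (fc h d c) x → Pre (fc h d c) y → x ≠ y →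
      (o v (x - y) - o v y).toNat = n → ((d * e - 1) * o v y : ℤ) ∣ o v (x - y) - o v y := by
  intro n
  induction n using Nat.strong_induction_on with
  | _ n ih =>
    intro x y hx hy hxy hn
    have he' : (1 : ℤ) ≤ e := by exact_mod_cast he
    have hd' : (2 : ℤ) ≤ d := by exact_mod_cast hd
    have hde : (2 : ℤ) ≤ d * e := by nlinarith
    have hoxy := bad_eq H he hd hc hx hy
    have hyneg := bad_neg H he hd hc hy
    have hxneg := bad_neg H he hd hc hx
    have hsub0 := sub_ne_zero.mpr hxy
    have hge : o v y ≤ o v (x - y) := by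
      rw [sub_eq_add_neg] at hsub0 ⊢
      exact o_add_ge v hsub0 (Or.inr hoxy.ge) (Or.inr (by rw [o_neg]))
    rcases hge.eq_or_lt with heq | hlt
    · rw [← heq, sub_self]; exact dvd_zero _
    · obtain ⟨hhne, hho⟩ := H.b x y hxneg hoxy.symm hxy (by rw [hoxy]; exact hlt)
      obtain ⟨hy0, hyo⟩ := H.a y hyneg
      have hpc := prod_close HM (X := h x) (Y := h y) hy0 HM.one (by rw [one_mul]; exact hhne) (by
        rw [one_mul, hho, hyo, hoxy]
        nlinarith)
      rw [one_mul, hho, hyo] at hpc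
      obtain ⟨p1, p2⟩ := hpc
      have hff : fc h d c x - fc h d c y = h x ^ d - h y ^ d := by simp [fc]
      have hfne : fc h d c x ≠ fc h d c y := by
        rw [← sub_ne_zero, hff]; exact p1
      have hofy : o v (fc h d c y) = o v y := bad_eq H he hd hc hy.map hy
      have hE : o v (fc h d c x - fc h d c y) - o v (fc h d c y) =
          (o v (x - y) - o v y) + (d * e - 1) * o v y := by
        rw [hff, p2, hofy, hoxy]; ring
      have hlt2 : (o v (fc h d c x - fc h d c y) - o v (fc h d c y)).toNat < n := by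
        rw [hE, ← hn]
        have : ((d * e - 1) * o v y : ℤ) < 0 := by nlinarith
        omega
      have := ih _ hlt2 _ _ hx.map hy.map hfne rfl
      rw [hE, hofy] at this
      exact (Int.dvd_iff_dvd_of_dvd_add this).mpr dvd_rfl

/-- `(de-1) o(y) ∣ o(h x - η h y) - o(h y)` -/
lemma bad_eta_s (H : GH v h e) (HM : GM v M d) (he : 1 ≤ e) (hd : 2 ≤ d) (hc : o v c < 0)
    {x y : K} (hx : Pre (fc h d c) x) (hy : Pre (fc h d c) y) {η : K} (hη : η ∈ M)
    (hne : h x ≠ η * h y) : ((d * e - 1) * o v y : ℤ) ∣ o v (h x - η * h y) - o v (h y) := by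
  have hoxy := bad_eq H he hd hc hx hy
  have hyneg := bad_neg H he hd hc hy
  have hxneg := bad_neg H he hd hc hx
  obtain ⟨hy0, hyo⟩ := H.a y hyneg
  obtain ⟨hx0, hxo⟩ := H.a x hxneg
  have hsub0 := sub_ne_zero.mpr hne
  have hge : o v (h y) ≤ o v (h x - η * h y) := by
    rw [sub_eq_add_neg] at hsub0 ⊢
    refine o_add_ge v hsub0 (Or.inr (by rw [hxo, hyo, hoxy])) (Or.inr ?_)
    rw [o_neg, o_mul v (HM.ne η hη) hy0, HM.unit η hη, zero_add]
  rcases hge.eq_or_lt with heq | hlt
  · rw [← heq, sub_self]; exact dvd_zero _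
  · obtain ⟨p1, p2⟩ := prod_close HM (X := h x) (Y := h y) hy0 hη hne hlt
    have hff : fc h d c x - fc h d c y = h x ^ d - h y ^ d := by simp [fc]
    have hfne : fc h d c x ≠ fc h d c y := by
      rw [← sub_ne_zero, hff]; exact p1
    have h1 := bad_pair_s H HM he hd hc _ _ _ hx.map hy.map hfne rfl
    have hofy : o v (fc h d c y) = o v y := bad_eq H he hd hc hy.map hy
    have hE : o v (fc h d c x - fc h d c y) - o v (fc h d c y) =
          (o v (h x - η * h y) - o v (h y)) + (d * e - 1) * o v y := by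
      rw [hff, p2, hofy, hyo]; ring
    rw [hE, hofy] at h1
    exact (Int.dvd_iff_dvd_of_dvd_add h1).mpr dvd_rfl

end loc

end Pool.Agent.Helper80.QP
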