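import Mathlib
import Pool.Agent.Helper80.QP.Strong

set_option autoImplicit false

open IsDedekindDomain NumberField Polynomial

namespace Pool.Agent.Helper80.QP

open Pool.Agent.Helper80.UC

variable {K : Type} [Field K] [NumberField K]

lemma sep_bin {m : ℕ} (hm : 0 < m) {a b : K} (ha : a ≠ 0) (hb : b ≠ 0) :
    (C a * X ^ m + C b : K[X]).Separable ∧ (C a * X ^ m + C b : K[X]).natDegree = m := by
  have h1 : (C a * X ^ m + C b : K[X]) = C a * (X ^ m - C (-(b / a))) := by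
    rw [mul_sub, ← C_mul, ← sub_neg_eq_add]
    congr 1
    rw [← C_neg]
    congr 1
    field_simp
  refine ⟨?_, ?_⟩
  · rw [h1]
    refine (Polynomial.separable_X_pow_sub_C (-(b / a)) (by exact_mod_cast (by omega : m ≠ 0))
      (by simp [ha, hb])).unit_mul (isUnit_C.mpr (IsUnit.mk0 _ ha))
  · rw [h1, natDegree_C_mul ha, natDegree_X_pow_sub_C]

/-- the curve `(t-c1)(t-c2) = δ s^m (t-c3)^2` -/
lemma G3_fin {m : ℕ} (hm : 5 ≤ m) {c1 c2 c3 δ : K} (h12 : c1 ≠ c2) (h13 : c1 ≠ c3)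
    (h23 : c2 ≠ c3) (hδ : δ ≠ 0) :
    {t : K | ∃ s : K, s ≠ 0 ∧ (t - c1) * (t - c2) = δ * s ^ m * (t - c3) ^ 2}.Finite := by
  have d12 := sub_ne_zero.mpr h12
  have d13 := sub_ne_zero.mpr h13
  have d23 := sub_ne_zero.mpr h23
  set F : K[X] := C (4 * δ * ((c1 - c3) * (c2 - c3))) * X ^ m + C ((c1 - c2) ^ 2) with hF
  obtain ⟨hsep, hdeg⟩ := sep_bin (K := K) (m := m) (by omega)
    (a := 4 * δ * ((c1 - c3) * (c2 - c3))) (b := (c1 - c2) ^ 2)
    (mul_ne_zero (mul_ne_zero (by norm_num) hδ) (mul_ne_zero d13 d23)) (pow_ne_zero _ d12)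
  have hfin := hyperelliptic F hsep (by rw [hF, hdeg]; exact hm)
  have hfin2 : (⋃ s ∈ {x : K | ∃ y, y ^ 2 = F.eval x},
      {t : K | s ≠ 0 ∧ (t - c1) * (t - c2) = δ * s ^ m * (t - c3) ^ 2}).Finite := by
    refine hfin.biUnion fun s _ => ?_
    by_cases hs : s = 0
    · convert Set.finite_empty
      ext t
      simp [hs]
    · set p : K[X] := (X - C c1) * (X - C c2) - C (δ * s ^ m) * (X - C c3) ^ 2 with hp
      have hp0 : p ≠ 0 := by
        intro h0
        have h1 := congrArg (Polynomial.eval c1) h0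
        rw [hp] at h1
        simp only [eval_sub, eval_mul, eval_X, eval_C, eval_zero, sub_self, zero_mul, zero_sub,
          neg_eq_zero, mul_eq_zero, eval_pow] at h1
        rcases h1 with (h | h) | h
        · exact hδ h
        · exact hs (pow_eq_zero_iff (by omega) |>.mp h)
        · exact d13 (pow_eq_zero_iff (by omega) |>.mp h)
      refine (Polynomial.finite_setOfPred_isRoot hp0).subset ?_
      rintro t ⟨-, ht⟩
      show p.eval t = 0
      rw [hp]
      simp only [eval_sub, eval_mul, eval_X, eval_C, eval_pow]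
      linear_combination ht
  refine hfin2.subset ?_
  rintro t ⟨s, hs, ht⟩
  simp only [Set.mem_iUnion]
  refine ⟨s, ⟨2 * (1 - δ * s ^ m) * t - ((c1 + c2) - 2 * c3 * (δ * s ^ m)), ?_⟩, hs, ht⟩
  rw [hF]
  simp only [eval_add, eval_mul, eval_C, eval_X, eval_pow]
  linear_combination (4 * (1 - δ * s ^ m)) * ht

/-- **key finiteness lemma, three points** -/
lemma key_fin3 {m : ℕ} (hm : 5 ≤ m) {c1 c2 c3 : K} (h12 : c1 ≠ c2) (h13 : c1 ≠ c3)
    (h23 : c2 ≠ c3) (S : Set (Pl K)) (hS : S.Finite) :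
    {t : K | t ≠ c1 ∧ t ≠ c2 ∧ t ≠ c3 ∧ ∀ v : Pl K, v ∉ S →
      (m : ℤ) ∣ o v ((t - c1) * (t - c2) / (t - c3) ^ 2)}.Finite := by
  obtain ⟨T, hT0, hT⟩ := selm m (by omega) S hS
  have hfin : (⋃ δ ∈ (T : Set K), {t : K | ∃ s : K, s ≠ 0 ∧ (t - c1) * (t - c2) =
      δ * s ^ m * (t - c3) ^ 2}).Finite :=
    T.finite_toSet.biUnion fun δ hδ => G3_fin hm h12 h13 h23 (hT0 δ hδ)
  refine hfin.subset ?_
  rintro t ⟨t1, t2, t3, hv⟩
  have n1 := sub_ne_zero.mpr t1
  have n2 := sub_ne_zero.mpr t2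
  have n3 := sub_ne_zero.mpr t3
  obtain ⟨δ, hδ, s, hs, h⟩ := hT _ (div_ne_zero (mul_ne_zero n1 n2) (pow_ne_zero 2 n3)) hv
  simp only [Set.mem_iUnion]
  exact ⟨δ, hδ, s, hs, by rw [← h, div_mul_cancel₀ _ (pow_ne_zero 2 n3)]⟩

/-- `t^n - 1 = δ s^m` -/
lemma SE3_fin {n m : ℕ} (hn : 3 ≤ n) (hm : 5 ≤ m) (hnm : Nat.Coprime m n) {ζ : K}
    (hζ : IsPrimitiveRoot ζ n) {δ : K} (hδ : δ ≠ 0) :
    {t : K | ∃ s : K, t ^ n - 1 = δ * s ^ m}.Finite := by
  classical
  obtain ⟨S0, hS0, HM⟩ := GM_of (K := K) (show 0 < n by omega) hζ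
  set S : Set (Pl K) := S0 ∪ {v | o v δ ≠ 0} with hS
  have hSf : S.Finite := hS0.union (fin_o hδ)
  have H0 := GM0_of (K := K) (show 0 < n by omega) hζ
  set M := nthRootsFinset n (1 : K) with hM
  have hemb : Nonempty (Fin 3 ↪ (M : Finset K)) := by
    apply Function.Embedding.nonempty_of_card_le
    rw [Fintype.card_fin, Fintype.card_coe, H0.card]
    exact hn
  obtain ⟨g⟩ := hemb
  have hg : ∀ i j : Fin 3, i ≠ j → (g i : K) ≠ g j := fun i j hij h =>
    hij (g.injective (Subtype.ext h))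
  have hk := key_fin3 hm (hg 0 1 (by decide)) (hg 0 2 (by decide)) (hg 1 2 (by decide)) S hSf
  refine (M.finite_toSet.union hk).subset ?_
  rintro t ⟨s, hs⟩
  by_cases htM : t ∈ M
  · exact Or.inl htM
  right
  have hne : ∀ η ∈ M, t ≠ η := fun η hη h => htM (h ▸ hη)
  have ht1 : t ^ n - 1 ≠ 0 := fun h => htM (H0.mem t (sub_eq_zero.mp h))
  have hs0 : s ≠ 0 := by
    rintro rfl
    rw [zero_pow (by omega), mul_zero] at hs
    exact ht1 hs
  have key : ∀ v ∉ S, ∀ η ∈ M, (m : ℤ) ∣ o v (t - η) := by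
    intro v hv η hη
    have hv0 : v ∉ S0 := fun h => hv (Or.inl h)
    have hvδ : o v δ = 0 := by
      by_contra h
      exact hv (Or.inr h)
    have G := HM v hv0
    have hos : o v (t ^ n - 1) = m * o v s := by
      rw [hs, o_mul v hδ (pow_ne_zero _ hs0), hvδ, o_pow, zero_add]
    have hd0 := sub_ne_zero.mpr (hne η hη)
    rcases lt_trichotomy (o v (t - η)) 0 with h | h | h
    · have hη0 := G.ne η hη
      have h1 := o_add_lt v hd0 hη0 (by rw [G.unit η hη]; exact h)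
      rw [sub_add_cancel] at h1
      have hn' : (0 : ℤ) < n := by exact_mod_cast (by omega : 0 < n)
      have h2 := o_add_lt v (x := t ^ n) (y := -1) (pow_ne_zero _ h1.1) (by norm_num) (by
        rw [o_pow, o_neg, o_one, h1.2]
        exact mul_neg_of_pos_of_neg hn' h)
      rw [← sub_eq_add_neg, o_pow, hos, h1.2] at h2
      have h3 : (m : ℤ) ∣ n * o v (t - η) := by rw [← h2.2]; exact Dvd.intro _ rfl
      exact (Int.isCoprime_iff_gcd_eq_one.mpr (by simpa using hnm)).dvd_of_dvd_mul_left h3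
    · rw [h]; exact dvd_zero _
    · obtain ⟨p1, p2⟩ := prod_close G (X := t) (Y := 1) one_ne_zero hη (by
        rw [mul_one]; exact hne η hη) (by rw [o_one, mul_one]; exact h)
      rw [one_pow, mul_one, o_one, mul_zero, add_zero, hos] at p2
      rw [← p2]
      exact Dvd.intro _ rfl
  refine ⟨hne _ (g 0).2, hne _ (g 1).2, hne _ (g 2).2, fun v hv => ?_⟩
  have n0 := sub_ne_zero.mpr (hne _ (g 0).2)
  have n1 := sub_ne_zero.mpr (hne _ (g 1).2)
  have n2 := sub_ne_zero.mpr (hne _ (g 2).2)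
  rw [o_div v (mul_ne_zero n0 n1) (pow_ne_zero 2 n2), o_mul v n0 n1, o_pow]
  exact dvd_sub (dvd_add (key v hv _ (g 0).2) (key v hv _ (g 1).2))
    (Dvd.dvd.mul_left (key v hv _ (g 2).2) _)

end Pool.Agent.Helper80.QP
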