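import Mathlib
import Pool.Agent.Helper80.QP.Key3

set_option autoImplicit false

open IsDedekindDomain NumberField Polynomial

namespace Pool.Agent.Helper80.QP

open Pool.Agent.Helper80.UC

/-- transfer of the root-of-unity set -/
lemma GM_above {K L : Type} [Field K] [NumberField K] [Field L] [NumberField L] {d : ℕ}
    (hd : 0 < d) {ζ : K} (hζ : IsPrimitiveRoot ζ d) (φ : K →+* L) {v : Pl K} {w : Pl L} {e : ℕ}
    (hw : ∀ x : K, o w (φ x) = e * o v x) (H : GM v (nthRootsFinset d (1 : K)) d) :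
    GM w (nthRootsFinset d (1 : L)) d := by
  have hζL : IsPrimitiveRoot (φ ζ) d := hζ.map_of_injective φ.injective
  have hlift : ∀ η ∈ nthRootsFinset d (1 : L), ∃ η' ∈ nthRootsFinset d (1 : K), φ η' = η := by
    intro η hη
    rw [Polynomial.mem_nthRootsFinset hd] at hη
    have : NeZero d := ⟨by omega⟩
    obtain ⟨i, -, hi⟩ := hζL.eq_pow_of_pow_eq_one hη
    refine ⟨ζ ^ i, ?_, by rw [map_pow]; exact hi⟩
    rw [Polynomial.mem_nthRootsFinset hd, ← pow_mul, mul_comm, pow_mul, hζ.pow_eq_one, one_pow]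
  refine ⟨GM0_of hd hζL, fun η hη => ?_, fun η hη η' hη' hne => ?_⟩
  · obtain ⟨θ, hθ, rfl⟩ := hlift η hη
    rw [hw, H.unit θ hθ, mul_zero]
  · obtain ⟨θ, hθ, rfl⟩ := hlift η hη
    obtain ⟨θ', hθ', rfl⟩ := hlift η' hη'
    rw [← map_sub, hw, H.diff θ hθ θ' hθ' (fun h => hne (by rw [h])), mul_zero]

/-- the values `2 + η + η⁻¹` -/
noncomputable def ce {K : Type} [Field K] (η : K) : K := 2 + η + η⁻¹

lemma ce_ne {K : Type} [Field K] {η η' : K} (h : η ≠ 0) (h' : η' ≠ 0) (h1 : η ≠ η')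
    (h2 : η * η' ≠ 1) : ce η ≠ ce η' := by
  intro he
  simp only [ce] at he
  have h3 : (η - η') * (η * η' - 1) = 0 := by
    have : η + η⁻¹ = η' + η'⁻¹ := by linear_combination he
    field_simp at this
    linear_combination this
  rcases mul_eq_zero.mp h3 with h4 | h4
  · exact h1 (sub_eq_zero.mp h4)
  · exact h2 (sub_eq_zero.mp h4)

theorem quad_tau (K : Type) [Field K] [NumberField K] {d : ℕ} (hd : 6 ≤ d) {ζ : K}
    (hζ : IsPrimitiveRoot ζ d) :
    ∃ F : Set K, F.Finite ∧ ∀ (L : Type) [Field L] [NumberField L] (φ : K →+* L) (c s p : K)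
      (x y : L), Per (fun z => z ^ d + φ c) x → Per (fun z => z ^ d + φ c) y → x ≠ y →
      x + y = φ s → x * y = φ p → p ≠ 0 → s ^ 2 / p ∈ F := by
  classical
  obtain ⟨S, hS, HM⟩ := GM_of (K := K) (show 0 < d by omega) hζ
  have hζ0 : ζ ≠ 0 := hζ.ne_zero (by omega)
  have hpow : ∀ i j : ℕ, i < d → j < d → i ≠ j → ζ ^ i ≠ ζ ^ j := fun i j hi hj hij h =>
    hij (hζ.pow_inj hi hj h)
  have hp1 : ∀ i : ℕ, 0 < i → i < d → ζ ^ i ≠ 1 := fun i hi hid => hζ.pow_ne_one_of_pos_of_lt hi.ne' hid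
  have n1 := pow_ne_zero 1 hζ0
  have n2 := pow_ne_zero 2 hζ0
  have n3 := pow_ne_zero 3 hζ0
  have c12 : ce (ζ ^ 1) ≠ ce (ζ ^ 2) := ce_ne n1 n2 (hpow 1 2 (by omega) (by omega) (by norm_num))
    (by rw [← pow_add]; exact hp1 3 (by omega) (by omega))
  have c13 : ce (ζ ^ 1) ≠ ce (ζ ^ 3) := ce_ne n1 n3 (hpow 1 3 (by omega) (by omega) (by norm_num))
    (by rw [← pow_add]; exact hp1 4 (by omega) (by omega))
  have c23 : ce (ζ ^ 2) ≠ ce (ζ ^ 3) := ce_ne n2 n3 (hpow 2 3 (by omega) (by omega) (by norm_num))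
    (by rw [← pow_add]; exact hp1 5 (by omega) (by omega))
  refine ⟨_, key_fin3 (m := d - 1) (by omega) c12 c13 c23 S hS, ?_⟩
  intro L _ _ φ c s p x y hx hy hxy hs hp hp0
  have hφp : φ p ≠ 0 := (map_ne_zero φ).mpr hp0
  have hxy0 : x * y ≠ 0 := by rw [hp]; exact hφp
  have hx0 : x ≠ 0 := left_ne_zero_of_mul hxy0
  have hy0 : y ≠ 0 := right_ne_zero_of_mul hxy0
  have hζL : IsPrimitiveRoot (φ ζ) d := hζ.map_of_injective φ.injective
  have G0 := GM0_of (K := L) (show 0 < d by omega) hζL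
  have hx' : Per (fc (fun z : L => z) d (φ c)) x := hx
  have hy' : Per (fc (fun z : L => z) d (φ c)) y := hy
  have hfne : x ^ d ≠ y ^ d := by
    intro h
    apply hxy
    refine hx.inj hy ?_
    show x ^ d + φ c = y ^ d + φ c
    rw [h]
  have hxη : ∀ η ∈ nthRootsFinset d (1 : L), x - η * y ≠ 0 := by
    intro η hη h
    apply hfne
    rw [Polynomial.mem_nthRootsFinset (by omega)] at hη
    rw [sub_eq_zero.mp h, mul_pow, hη, one_mul]
  -- membership
  have hmemK : ∀ i : ℕ, ζ ^ i ∈ nthRootsFinset d (1 : K) := by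
    intro i
    rw [Polynomial.mem_nthRootsFinset (by omega), ← pow_mul, mul_comm, pow_mul, hζ.pow_eq_one,
      one_pow]
  have hmem : ∀ i : ℕ, φ (ζ ^ i) ∈ nthRootsFinset d (1 : L) := by
    intro i
    rw [Polynomial.mem_nthRootsFinset (by omega), ← map_pow, ← pow_mul, mul_comm, pow_mul,
      hζ.pow_eq_one, one_pow, map_one]
  have hmem' : ∀ i : ℕ, (φ (ζ ^ i))⁻¹ ∈ nthRootsFinset d (1 : L) := by
    intro i
    have := hmem i
    rw [Polynomial.mem_nthRootsFinset (by omega)] at this ⊢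
    rw [inv_pow, this, inv_one]
  set τ : K := s ^ 2 / p with hτ
  have hφτ : φ τ = (x + y) ^ 2 / (x * y) := by rw [hτ, map_div₀, map_pow, hs, hp]
  have hfac : ∀ i : ℕ, φ (τ - ce (ζ ^ i)) =
      (x - φ (ζ ^ i) * y) * (x - (φ (ζ ^ i))⁻¹ * y) / (x * y) := by
    intro i
    have hne : φ (ζ ^ i) ≠ 0 := (map_ne_zero φ).mpr (pow_ne_zero _ hζ0)
    rw [map_sub, hφτ, ce, map_add, map_add, map_inv₀, map_ofNat]
    field_simp
    ring
  have hne0 : ∀ i : ℕ, τ - ce (ζ ^ i) ≠ 0 := by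
    intro i h
    have h1 := hfac i
    rw [h, map_zero] at h1
    exact div_ne_zero (mul_ne_zero (hxη _ (hmem i)) (hxη _ (hmem' i))) hxy0 h1.symm
  have hm : ((d - 1 : ℕ) : ℤ) = d - 1 := by push_cast [show 1 ≤ d by omega]; ring
  refine ⟨sub_ne_zero.mp (hne0 1), sub_ne_zero.mp (hne0 2), sub_ne_zero.mp (hne0 3),
    fun v hv => ?_⟩
  obtain ⟨w, e, he, hw⟩ := place_above φ v
  have he' : (e : ℤ) ≠ 0 := by exact_mod_cast he.ne'
  have G := GM_above (by omega) hζ φ hw (HM v hv)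
  have ho : ∀ i : ℕ, e * o v (τ - ce (ζ ^ i)) =
      o w (x - φ (ζ ^ i) * y) + o w (x - (φ (ζ ^ i))⁻¹ * y) - (o w x + o w y) := by
    intro i
    rw [← hw, hfac i, o_div w (mul_ne_zero (hxη _ (hmem i)) (hxη _ (hmem' i))) hxy0,
      o_mul w (hxη _ (hmem i)) (hxη _ (hmem' i)), o_mul w hx0 hy0]
  rw [o_div v (mul_ne_zero (hne0 1) (hne0 2)) (pow_ne_zero 2 (hne0 3)),
    o_mul v (hne0 1) (hne0 2), o_pow]
  by_cases hc : c ∈ A v
  · have hcw : φ c ∈ A w := by
      apply mem_A_of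
      rw [hw]
      exact mul_nonneg (by omega) (o_nonneg v hc)
    have hgu := (good_unit (GH_id w) G le_rfl (by omega) hcw hx' hy' hxy).1
    have key : ∀ i : ℕ, 0 < i → i < d → o v (τ - ce (ζ ^ i)) = - o v p := by
      intro i hi hid
      have h1 : φ (ζ ^ i) ≠ 1 := by
        intro h
        exact hp1 i hi hid (φ.injective (by rw [h, map_one]))
      have h2 : (φ (ζ ^ i))⁻¹ ≠ 1 := by
        intro h
        exact h1 (inv_eq_one.mp h)
      have h3 := hgu _ (hmem i) h1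
      have h4 := hgu _ (hmem' i) h2
      have h5 := ho i
      rw [h3, h4, ← o_mul w hx0 hy0, hp, hw] at h5
      have h6 : (e : ℤ) * o v (τ - ce (ζ ^ i)) = e * (- o v p) := by rw [h5]; ring
      exact mul_left_cancel₀ he' h6
    rw [key 1 (by omega) (by omega), key 2 (by omega) (by omega), key 3 (by omega) (by omega)]
    have : (-o v p + -o v p - ((2 : ℕ) : ℤ) * -o v p) = 0 := by push_cast; ring
    rw [this]
    exact dvd_zero _
  · obtain ⟨-, hc'⟩ := not_mem_A v hc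
    have hcw : o w (φ c) < 0 := by
      rw [hw]
      have : (0 : ℤ) < e := by exact_mod_cast he
      nlinarith
    have hoxy := bad_eq (GH_id w) le_rfl (by omega : 2 ≤ d) hcw hx'.pre hy'.pre
    have hval := (bad_val (GH_id w) le_rfl (by omega : 2 ≤ d) hcw hy'.pre).2
    have key : ∀ i : ℕ, ((d - 1 : ℕ) : ℤ) ∣ o v (τ - ce (ζ ^ i)) := by
      intro i
      obtain ⟨k1, hk1⟩ := bad_eta_s (GH_id w) G le_rfl (by omega : 2 ≤ d) hcw hx'.pre hy'.pre
        (hmem i) (sub_ne_zero.mp (hxη _ (hmem i)))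
      obtain ⟨k2, hk2⟩ := bad_eta_s (GH_id w) G le_rfl (by omega : 2 ≤ d) hcw hx'.pre hy'.pre
        (hmem' i) (sub_ne_zero.mp (hxη _ (hmem' i)))
      have h5 := ho i
      rw [hoxy] at h5
      rw [hw] at hval
      push_cast at hval hk1 hk2
      have h6 : (e : ℤ) * (d * o v (τ - ce (ζ ^ i))) = e * ((d - 1) * (o v c * (k1 + k2))) := by
        have h7 : (e : ℤ) * o v (τ - ce (ζ ^ i)) = (d - 1) * o w y * (k1 + k2) := by
          rw [h5]
          linear_combination hk1 + hk2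
        calc (e : ℤ) * (d * o v (τ - ce (ζ ^ i))) = d * (e * o v (τ - ce (ζ ^ i))) := by ring
          _ = d * ((d - 1) * o w y * (k1 + k2)) := by rw [h7]
          _ = (d - 1) * (k1 + k2) * (d * 1 * o w y) := by ring
          _ = (d - 1) * (k1 + k2) * (e * o v c) := by rw [hval]
          _ = _ := by ring
      have h8 := mul_left_cancel₀ he' h6
      have h9 : ((d - 1 : ℕ) : ℤ) ∣ (d : ℤ) * o v (τ - ce (ζ ^ i)) := by
        rw [h8, hm]; exact Dvd.intro _ rfl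
      have hcop : IsCoprime ((d - 1 : ℕ) : ℤ) (d : ℤ) := ⟨-1, 1, by rw [hm]; ring⟩
      exact hcop.dvd_of_dvd_mul_left h9
    exact dvd_sub (dvd_add (key 1) (key 2)) (Dvd.dvd.mul_left (key 3) _)

end Pool.Agent.Helper80.QP
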