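import Mathlib
import Pool.Agent.Helper80.QP.Tau

set_option autoImplicit false

open IsDedekindDomain NumberField Polynomial

namespace Pool.Agent.Helper80.QP

open Pool.Agent.Helper80.UC

section lin

variable {K W : Type} [Field K] [Field W] [Algebra K W]

/-- `x` satisfies a monic quadratic equation over `K` -/
def Deg2 (K : Type) {W : Type} [Field K] [Field W] [Algebra K W] (x : W) : Prop :=
  ∃ s p : K, x ^ 2 - algebraMap K W s * x + algebraMap K W p = 0

/-- conjugate pair -/
structure Cj (x y : W) (s p : K) : Prop where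
  add : x + y = algebraMap K W s
  mul : x * y = algebraMap K W p

lemma Cj.sq {x y : W} {s p : K} (h : Cj x y s p) :
    x ^ 2 = algebraMap K W s * x - algebraMap K W p := by
  rw [← h.add, ← h.mul]; ring

lemma Cj.sq' {x y : W} {s p : K} (h : Cj x y s p) :
    y ^ 2 = algebraMap K W s * y - algebraMap K W p := by
  rw [← h.add, ← h.mul]; ring

lemma Deg2.cj {x : W} (h : Deg2 K x) : ∃ (y : W) (s p : K), Cj x y s p := by
  obtain ⟨s, p, h⟩ := h
  refine ⟨algebraMap K W s - x, s, p, by ring, ?_⟩
  linear_combination -h

lemma Cj.deg2 {x y : W} {s p : K} (h : Cj x y s p) : Deg2 K x :=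
  ⟨s, p, by rw [h.sq]; ring⟩

lemma Cj.symm {x y : W} {s p : K} (h : Cj x y s p) : Cj y x s p :=
  ⟨by rw [add_comm]; exact h.add, by rw [mul_comm]; exact h.mul⟩

/-- simultaneous linear expressions -/
def LinP (K : Type) {W : Type} [Field K] [Field W] [Algebra K W] (x y u w : W) : Prop :=
  ∃ α β : K, u = algebraMap K W α + algebraMap K W β * x ∧
    w = algebraMap K W α + algebraMap K W β * y

lemma LinP.refl (x y : W) : LinP K x y x y := ⟨0, 1, by simp, by simp⟩

lemma LinP.const (x y : W) (α : K) : LinP K x y (algebraMap K W α) (algebraMap K W α) :=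
  ⟨α, 0, by simp, by simp⟩

lemma LinP.add {x y u w u' w' : W} (h : LinP K x y u w) (h' : LinP K x y u' w') :
    LinP K x y (u + u') (w + w') := by
  obtain ⟨α, β, rfl, rfl⟩ := h
  obtain ⟨α', β', rfl, rfl⟩ := h'
  exact ⟨α + α', β + β', by simp only [map_add]; ring, by simp only [map_add]; ring⟩

lemma LinP.mul {x y u w u' w' : W} {s p : K} (hc : Cj x y s p) (h : LinP K x y u w)
    (h' : LinP K x y u' w') : LinP K x y (u * u') (w * w') := by
  obtain ⟨α, β, rfl, rfl⟩ := h
  obtain ⟨α', β', rfl, rfl⟩ := h'
  refine ⟨α * α' - β * β' * p, α * β' + β * α' + β * β' * s, ?_, ?_⟩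
  · simp only [map_add, map_sub, map_mul]
    linear_combination (algebraMap K W β * algebraMap K W β') * hc.sq
  · simp only [map_add, map_sub, map_mul]
    linear_combination (algebraMap K W β * algebraMap K W β') * hc.sq'

lemma LinP.pow {x y u w : W} {s p : K} (hc : Cj x y s p) (h : LinP K x y u w) (n : ℕ) :
    LinP K x y (u ^ n) (w ^ n) := by
  induction n with
  | zero => simpa using LinP.const (K := K) x y 1
  | succ n ih => rw [pow_succ, pow_succ]; exact ih.mul hc h

lemma LinP.iter {x y u w : W} {s p : K} (hc : Cj x y s p) (h : LinP K x y u w) (d : ℕ) (c : K)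
    (n : ℕ) : LinP K x y ((fun z => z ^ d + algebraMap K W c)^[n] u)
      ((fun z => z ^ d + algebraMap K W c)^[n] w) := by
  induction n with
  | zero => simpa using h
  | succ n ih =>
    rw [Function.iterate_succ_apply', Function.iterate_succ_apply']
    exact (ih.pow hc d).add (LinP.const x y c)

lemma LinP.cj {x y u w : W} {s p : K} (hc : Cj x y s p) (h : LinP K x y u w) :
    ∃ s' p' : K, Cj u w s' p' := by
  obtain ⟨α, β, rfl, rfl⟩ := h
  refine ⟨2 * α + β * s, α ^ 2 + α * β * s + β ^ 2 * p, ?_, ?_⟩
  · simp only [map_add, map_mul, map_ofNat]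
    rw [← hc.add]; ring
  · simp only [map_add, map_mul, map_pow]
    rw [← hc.add, ← hc.mul]; ring

/-- if `u` is in `K` then `u = w`, unless `x` is in `K` -/
lemma LinP.eq_of_mem {x y u w : W} (h : LinP K x y u w)
    (hx : x ∉ Set.range (algebraMap K W)) (hu : u ∈ Set.range (algebraMap K W)) : w = u := by
  obtain ⟨α, β, hu', hw⟩ := h
  obtain ⟨b, hb⟩ := hu
  have hβ : β = 0 := by
    by_contra hβ
    apply hx
    have hβ' : algebraMap K W β ≠ 0 := (_root_.map_ne_zero _).mpr hβ
    refine ⟨(b - α) / β, ?_⟩
    rw [map_div₀, map_sub, hb, hu']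
    field_simp
    ring
  rw [hw, hu', hβ]
  simp

lemma LinP.eq_of_eq {x y w : W} (h : LinP K x y x w)
    (hx : x ∉ Set.range (algebraMap K W)) : w = y := by
  obtain ⟨α, β, hu', hw⟩ := h
  have hβ : β = 1 := by
    by_contra hβ
    apply hx
    have hβ' : algebraMap K W (1 - β) ≠ 0 := (_root_.map_ne_zero _).mpr (sub_ne_zero.mpr (Ne.symm hβ))
    refine ⟨α / (1 - β), ?_⟩
    rw [map_div₀, div_eq_iff hβ', map_sub, map_one]
    linear_combination -hu'
  rw [hβ, map_one, one_mul] at hu' hw
  rw [hw]
  linear_combination -hu'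

/-- the conjugate of a periodic point is periodic -/
lemma Cj.per {x y : W} {s p : K} (hc : Cj x y s p) {d : ℕ} {c : K}
    (hx : Per (fun z => z ^ d + algebraMap K W c) x) (hxK : x ∉ Set.range (algebraMap K W)) :
    Per (fun z => z ^ d + algebraMap K W c) y := by
  obtain ⟨n, hn, h⟩ := hx
  refine ⟨n, hn, ?_⟩
  have h1 := (LinP.refl (K := K) x y).iter hc d c n
  rw [h] at h1
  exact h1.eq_of_eq hxK

lemma Cj.ne [CharZero W] {x y : W} {s p : K} (hc : Cj x y s p)
    (hxK : x ∉ Set.range (algebraMap K W)) : x ≠ y := by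
  rintro rfl
  apply hxK
  have h2 : algebraMap K W s = 2 * x := by rw [← hc.add]; ring
  refine ⟨s / 2, ?_⟩
  rw [map_div₀, h2, map_ofNat]
  field_simp

end lin

/-- pulling back periodicity along an embedding -/
lemma Per.pull {α β : Type*} {f : α → α} {g : β → β} (φ : α → β) (hφ : Function.Injective φ)
    (h : ∀ x, φ (f x) = g (φ x)) {x : α} (hx : Per g (φ x)) : Per f x := by
  obtain ⟨n, hn, he⟩ := hx
  exact ⟨n, hn, hφ (by rw [iter_map φ h]; exact he)⟩

lemma Pre.pull {α β : Type*} {f : α → α} {g : β → β} (φ : α → β) (hφ : Function.Injective φ)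
    (h : ∀ x, φ (f x) = g (φ x)) {x : α} (hx : Pre g (φ x)) : Pre f x := by
  obtain ⟨i, j, hij, he⟩ := hx
  exact ⟨i, j, hij, hφ (by rw [iter_map φ h, iter_map φ h]; exact he)⟩

/-- **No quadratic periodic points outside a finite set of parameters.** -/
theorem per2 (K W : Type) [Field K] [NumberField K] [Field W] [Algebra K W] {d : ℕ} (hd : 6 ≤ d)
    {ζ : K} (hζ : IsPrimitiveRoot ζ d) :
    ∃ E : Set K, E.Finite ∧ ∀ c ∉ E, ∀ x : W, Deg2 K x →
      Per (fun z => z ^ d + algebraMap K W c) x → x ∈ Set.range (algebraMap K W) := by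
  classical
  haveI : CharZero W := charZero_of_injective_algebraMap (algebraMap K W).injective
  obtain ⟨F, hF, HF⟩ := quad_tau K hd hζ
  set R : Set W := {t : W | ∃ τ ∈ F, t ^ 2 - (algebraMap K W τ - 2) * t + 1 = 0} with hR
  have hRf : R.Finite := by
    have h1 : (⋃ τ ∈ F, {t : W | (X ^ 2 - C (algebraMap K W τ - 2) * X + 1 : W[X]).IsRoot t}).Finite := by
      refine hF.biUnion fun τ _ => Polynomial.finite_setOfPred_isRoot ?_
      intro h0
      have h2 := congrArg (Polynomial.eval 0) h0
      simp at h2
    refine h1.subset ?_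
    rintro t ⟨τ, hτ, ht⟩
    simp only [Set.mem_iUnion]
    refine ⟨τ, hτ, ?_⟩
    show (X ^ 2 - C (algebraMap K W τ - 2) * X + 1 : W[X]).eval t = 0
    simp only [eval_add, eval_sub, eval_mul, eval_pow, eval_X, eval_C, eval_one]
    exact ht
  have hRi : ∀ t ∈ R, IsIntegral K t := by
    rintro t ⟨τ, hτ, ht⟩
    refine ⟨X ^ 2 - C (τ - 2) * X + 1, ?_, ?_⟩
    · monicity!
    · have h2 : algebraMap K W 2 = 2 := map_ofNat _ 2
      simpa [h2] using ht
  let M := IntermediateField.adjoin K R
  haveI : Finite R := hRf
  haveI : FiniteDimensional K M := IntermediateField.finiteDimensional_adjoin hRi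
  haveI : NumberField M := NumberField.of_module_finite K M
  have hE := exc_two M (d := d) (by omega)
  set EM : Set M := {c : M | ∃ x y : M, x ≠ y ∧ Per (fun z => z ^ d + c) x ∧
    Per (fun z => z ^ d + c) y} with hEM
  refine ⟨(algebraMap K M) ⁻¹' EM ∪ {0}, (hE.preimage (algebraMap K M).injective.injOn).union
    (Set.finite_singleton 0), ?_⟩
  intro c hc
  simp only [Set.mem_union, Set.mem_preimage, Set.mem_singleton_iff, not_or] at hc
  obtain ⟨hcM, hc0⟩ := hc
  set f : W → W := fun z => z ^ d + algebraMap K W c with hf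
  have hmapM : ∀ z : M, algebraMap M W ((fun z => z ^ d + algebraMap K M c) z) =
      f (algebraMap M W z) := by
    intro z
    simp only [hf, map_add, map_pow]
    rw [← IsScalarTower.algebraMap_apply K M W]
  -- two points in `M` are impossible
  have hno : ∀ x y : W, x ∈ M → y ∈ M → x ≠ y → Per f x → Per f y → False := by
    intro x y hx hy hxy hpx hpy
    apply hcM
    refine ⟨⟨x, hx⟩, ⟨y, hy⟩, fun h => hxy (congrArg Subtype.val h), ?_, ?_⟩
    · exact Per.pull (algebraMap M W) (algebraMap M W).injective hmapM hpx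
    · exact Per.pull (algebraMap M W) (algebraMap M W).injective hmapM hpy
  -- the sublemma
  have sub : ∀ (x y : W) (s p : K), Cj x y s p → x ≠ y → Per f x → Per f y → x + y = 0 := by
    intro x y s p hcj hxy hpx hpy
    by_contra hs
    have hsK : ∀ a : K, algebraMap K W a ∈ M := fun a => M.algebraMap_mem a
    by_cases hp : p = 0
    · have h1 := hcj.mul
      rw [hp, map_zero] at h1
      have h2 : x ∈ M ∧ y ∈ M := by
        rcases mul_eq_zero.mp h1 with h | h
        · refine ⟨by rw [h]; exact zero_mem _, ?_⟩
          have h3 := hcj.add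
          rw [h, zero_add] at h3
          rw [h3]; exact hsK s
        · refine ⟨?_, by rw [h]; exact zero_mem _⟩
          have h3 := hcj.add
          rw [h, add_zero] at h3
          rw [h3]; exact hsK s
      exact hno x y h2.1 h2.2 hxy hpx hpy
    · have hp' : algebraMap K W p ≠ 0 := (_root_.map_ne_zero _).mpr hp
      have hxy0 : x * y ≠ 0 := by rw [hcj.mul]; exact hp'
      have hx0 := left_ne_zero_of_mul hxy0
      have hy0 := right_ne_zero_of_mul hxy0
      have hxi : IsIntegral K x := by
        refine ⟨X ^ 2 - C s * X + C p, ?_, ?_⟩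
        · monicity!
        · simp only [eval₂_add, eval₂_sub, eval₂_mul, eval₂_pow, eval₂_X, eval₂_C]
          rw [hcj.sq]; ring
      let L := IntermediateField.adjoin K {x}
      haveI : FiniteDimensional K L := IntermediateField.adjoin.finiteDimensional hxi
      haveI : NumberField L := NumberField.of_module_finite K L
      have hxL : x ∈ L := IntermediateField.mem_adjoin_simple_self K x
      have hyL : y ∈ L := by
        have : y = algebraMap K W s - x := by rw [← hcj.add]; ring
        rw [this]
        exact sub_mem (L.algebraMap_mem s) hxL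
      have hmapL : ∀ z : L, algebraMap L W ((fun z => z ^ d + algebraMap K L c) z) =
          f (algebraMap L W z) := by
        intro z
        simp only [hf, map_add, map_pow]
        rw [← IsScalarTower.algebraMap_apply K L W]
      have hτ : s ^ 2 / p ∈ F := by
        refine HF L (algebraMap K L) c s p ⟨x, hxL⟩ ⟨y, hyL⟩
          (Per.pull (algebraMap L W) (algebraMap L W).injective hmapL hpx)
          (Per.pull (algebraMap L W) (algebraMap L W).injective hmapL hpy)
          (fun h => hxy (congrArg Subtype.val h)) ?_ ?_ hp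
        · apply Subtype.ext
          exact hcj.add
        · apply Subtype.ext
          exact hcj.mul
      have hτ' : algebraMap K W (s ^ 2 / p) = (x + y) ^ 2 / (x * y) := by
        rw [map_div₀, map_pow, hcj.add, hcj.mul]
      have htR : x / y ∈ R := by
        refine ⟨s ^ 2 / p, hτ, ?_⟩
        rw [hτ']
        field_simp
        ring
      have htM : x / y ∈ M := IntermediateField.subset_adjoin K R htR
      have h1 : (1 : W) + x / y ≠ 0 := by
        intro h
        apply hs
        have h5 : (1 + x / y) * y = x + y := by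
          field_simp
          ring
        rw [h, zero_mul] at h5
        exact h5.symm
      have hyM : y ∈ M := by
        have : y = algebraMap K W s / (1 + x / y) := by
          rw [eq_div_iff h1, ← hcj.add]
          field_simp
          ring
        rw [this]
        exact div_mem (hsK s) (add_mem (one_mem _) htM)
      have hxM : x ∈ M := by
        have : x = algebraMap K W s - y := by rw [← hcj.add]; ring
        rw [this]
        exact sub_mem (hsK s) hyM
      exact hno x y hxM hyM hxy hpx hpy
  -- conclusion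
  intro x hx hpx
  by_contra hxK
  obtain ⟨y, s, p, hcj⟩ := hx.cj
  have hxy := hcj.ne hxK
  have hpy := hcj.per hpx hxK
  have h1 := sub x y s p hcj hxy hpx hpy
  have hl := (LinP.refl (K := K) x y).iter hcj d c 1
  obtain ⟨s', p', hcj'⟩ := hl.cj hcj
  rw [Function.iterate_one] at hcj'
  have hfne : f x ≠ f y := fun h => hxy (hpx.inj hpy h)
  have h2 := sub (f x) (f y) s' p' hcj' hfne hpx.map hpy.map
  have hyx : y = -x := by linear_combination h1
  rcases Nat.even_or_odd d with he | ho
  · apply hfne
    simp only [hf]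
    rw [hyx, he.neg_pow]
  · simp only [hf] at h2
    rw [hyx, ho.neg_pow] at h2
    have h3 : algebraMap K W c = 0 := by
      have : 2 * algebraMap K W c = 0 := by linear_combination h2
      simpa using this
    exact hc0 ((map_eq_zero _).mp h3)

end Pool.Agent.Helper80.QP
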