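import Mathlib
import Pool.Agent.Helper80.QP.Lin

set_option autoImplicit false

open IsDedekindDomain NumberField Polynomial

namespace Pool.Agent.Helper80.QP

open Pool.Agent.Helper80.UC

/-- exceptional parameters coming from a quadratic point mapping to `η a` -/
lemma exc_fin2 (K : Type) [Field K] [NumberField K] {d : ℕ} (hd : 6 ≤ d) {ζ : K}
    (hζ : IsPrimitiveRoot ζ d) :
    {c : K | ∃ n : ℕ, d = n + n ∧ ∃ η : K, η ^ d = 1 ∧ η ≠ 1 ∧ ∃ t s : K, s ≠ 0 ∧
      t ^ n - 1 = (η - 1) * s ^ (d - 1) ∧ c = s⁻¹ - s⁻¹ ^ d}.Finite := by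
  by_cases hev : ∃ n, d = n + n
  · obtain ⟨n, hn⟩ := hev
    have hζn : IsPrimitiveRoot (ζ ^ 2) n := hζ.pow (by omega) (by omega)
    have hcop : Nat.Coprime (d - 1) n := by
      have h1 : d - 1 = (n - 1) + n := by omega
      rw [h1, Nat.coprime_add_self_left]
      obtain ⟨k, rfl⟩ : ∃ k, n = k + 1 := ⟨n - 1, by omega⟩
      simp
    have h1 : (⋃ η ∈ (nthRootsFinset d (1 : K) : Set K), ⋃ t ∈ {t : K | ∃ s : K,
        t ^ n - 1 = (η - 1) * s ^ (d - 1)}, ((fun s : K => s⁻¹ - s⁻¹ ^ d) ''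
          {s : K | η ≠ 1 ∧ t ^ n - 1 = (η - 1) * s ^ (d - 1)})).Finite := by
      refine (nthRootsFinset d (1 : K)).finite_toSet.biUnion fun η _ => ?_
      by_cases hη : η = 1
      · convert Set.finite_empty
        ext c
        simp [hη]
      have hη' := sub_ne_zero.mpr hη
      refine (SE3_fin (n := n) (m := d - 1) (by omega) (by omega) hcop hζn hη').biUnion
        fun t _ => Set.Finite.image _ ?_
      have hp0 : (X ^ (d - 1) - C ((t ^ n - 1) / (η - 1)) : K[X]) ≠ 0 :=
        X_pow_sub_C_ne_zero (by omega) _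
      refine (Polynomial.finite_setOfPred_isRoot hp0).subset ?_
      rintro s ⟨-, hs⟩
      show (X ^ (d - 1) - C ((t ^ n - 1) / (η - 1)) : K[X]).eval s = 0
      simp only [eval_sub, eval_pow, eval_X, eval_C]
      rw [hs]
      field_simp
      ring
    refine h1.subset ?_
    rintro c ⟨n', hn', η, hη, hη1, t, s, hs, hts, hc⟩
    obtain rfl : n' = n := by omega
    simp only [Set.mem_iUnion]
    exact ⟨η, by simpa [Polynomial.mem_nthRootsFinset (show 0 < d by omega)] using hη, t, ⟨s, hts⟩,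
      s, ⟨hη1, hts⟩, hc.symm⟩
  · convert Set.finite_empty
    ext c
    simp only [Set.mem_ofPred_eq, Set.mem_empty_iff_false, iff_false]
    rintro ⟨n, hn, -⟩
    exact hev ⟨n, hn⟩

/-- **Every preperiodic point of degree at most two over `K` is in `K`**, outside a finite set of
parameters. -/
theorem pre2 (K W : Type) [Field K] [NumberField K] [Field W] [Algebra K W] {d : ℕ} (hd : 6 ≤ d)
    {ζ : K} (hζ : IsPrimitiveRoot ζ d) :
    ∃ E : Set K, E.Finite ∧ ∀ c ∉ E, ∀ x : W, Deg2 K x →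
      Pre (fun z => z ^ d + algebraMap K W c) x → x ∈ Set.range (algebraMap K W) := by
  classical
  have hCZ : CharZero W := charZero_of_injective_algebraMap (algebraMap K W).injective
  obtain ⟨E1, hE1, H1⟩ := per2 K W hd hζ
  obtain ⟨E2, hE2, H2⟩ := exc_struct K (d := d) (by omega)
  refine ⟨E1 ∪ (E2 ∪ ({0} ∪ {c : K | ∃ n : ℕ, d = n + n ∧ ∃ η : K, η ^ d = 1 ∧ η ≠ 1 ∧
    ∃ t s : K, s ≠ 0 ∧ t ^ n - 1 = (η - 1) * s ^ (d - 1) ∧ c = s⁻¹ - s⁻¹ ^ d})),
    hE1.union (hE2.union ((Set.finite_singleton 0).union (exc_fin2 K hd hζ))), ?_⟩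
  intro c hc x hx hpx
  simp only [Set.mem_union, Set.mem_singleton_iff, not_or] at hc
  obtain ⟨hc1, hc2, hc0, hc3⟩ := hc
  by_contra hxK
  set f : W → W := fun z => z ^ d + algebraMap K W c with hf
  have hfK : ∀ z : K, algebraMap K W ((fun z => z ^ d + c) z) = f (algebraMap K W z) := by
    intro z
    simp only [hf, map_add, map_pow]
  have hit : ∀ n, Deg2 K (f^[n] x) := by
    intro n
    obtain ⟨y, s, p, hcj⟩ := hx.cj
    obtain ⟨s', p', h⟩ := ((LinP.refl (K := K) x y).iter hcj d c n).cj hcj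
    exact h.deg2
  have hex : ∃ j, f^[j] x ∈ Set.range (algebraMap K W) := by
    obtain ⟨n, hn⟩ := hpx.ev
    exact ⟨n, H1 c hc1 _ (hit n) hn⟩
  set j := Nat.find hex with hj
  have hjP : f^[j] x ∈ Set.range (algebraMap K W) := Nat.find_spec hex
  have hj0 : j ≠ 0 := by
    intro h0
    rw [h0] at hjP
    exact hxK (by simpa using hjP)
  obtain ⟨k, hk⟩ : ∃ k, j = k + 1 := ⟨j - 1, by omega⟩
  have hkP : f^[k] x ∉ Set.range (algebraMap K W) := Nat.find_min hex (by omega)
  rw [hk, Function.iterate_succ_apply'] at hjP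
  set u := f^[k] x with hu
  obtain ⟨b, hb⟩ := hjP
  have hPb : Pre (fun z => z ^ d + c) b := by
    refine Pre.pull (algebraMap K W) (algebraMap K W).injective hfK ?_
    rw [hb]
    exact (hpx.iter k).map
  rcases H2 c hc2 with h | ⟨a, ha, hset⟩
  · have : b ∈ {x : K | Pre (fun z => z ^ d + c) x} := hPb
    rw [h] at this
    exact this
  have hba : b ^ d = a ^ d := by
    have : b ∈ {x : K | Pre (fun z => z ^ d + c) x} := hPb
    rw [hset] at this
    exact this
  obtain ⟨y, s, p, hcj⟩ := (hit k).cj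
  have hl := (LinP.refl (K := K) (f^[k] x) y).iter hcj d c 1
  rw [Function.iterate_one] at hl
  have hfy := hl.eq_of_mem hkP ⟨b, hb⟩
  have hyu : y ^ d = u ^ d := by
    have : y ^ d + algebraMap K W c = u ^ d + algebraMap K W c := hfy
    exact add_right_cancel this
  have hu0 : u ≠ 0 := by
    intro h
    apply hkP
    rw [h]
    exact ⟨0, map_zero _⟩
  have hNZ : NeZero d := ⟨by omega⟩
  have hζW : IsPrimitiveRoot (algebraMap K W ζ) d :=
    hζ.map_of_injective (algebraMap K W).injective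
  have hroot : ∀ z : W, z ^ d = 1 → ∃ η : K, η ^ d = 1 ∧ algebraMap K W η = z := by
    intro z hz
    obtain ⟨i, -, hi⟩ := hζW.eq_pow_of_pow_eq_one hz
    refine ⟨ζ ^ i, ?_, by rw [map_pow]; exact hi⟩
    rw [← pow_mul, mul_comm, pow_mul, hζ.pow_eq_one, one_pow]
  obtain ⟨θ, hθ, hθy⟩ := hroot (y / u) (by rw [div_pow, hyu, div_self (pow_ne_zero _ hu0)])
  have hyθ : y = algebraMap K W θ * u := by rw [hθy, div_mul_cancel₀ _ hu0]
  have hθ1 : θ = -1 := by
    by_contra hne
    apply hkP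
    have h1 : (1 + θ) ≠ 0 := by
      intro h
      apply hne
      linear_combination h
    have h1' : algebraMap K W (1 + θ) ≠ 0 := (_root_.map_ne_zero _).mpr h1
    refine ⟨s / (1 + θ), ?_⟩
    rw [map_div₀, div_eq_iff h1', ← hcj.add, hyθ, map_add, map_one]
    ring
  have hyneg : y = -u := by rw [hyθ, hθ1, map_neg, map_one]; ring
  have hdev : Even d := by
    rw [hθ1] at hθ
    exact (neg_one_pow_eq_one_iff_even (by norm_num)).mp hθ
  obtain ⟨n, hn⟩ := hdev
  have hu2 : u ^ 2 = algebraMap K W (-p) := by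
    rw [map_neg, ← hcj.mul, hyneg]; ring
  have hbp : (-p) ^ n + c = b := by
    apply (algebraMap K W).injective
    rw [hb, map_add, map_pow, ← hu2, ← pow_mul, two_mul, ← hn]
  have hcc : c = a - a ^ d := by linear_combination ha
  have ha0 : a ≠ 0 := by
    rintro rfl
    apply hc0
    rw [hcc, zero_pow (by omega)]
    ring
  have had : a ^ d ≠ 0 := pow_ne_zero _ ha0
  have hη1 : b / a ≠ 1 := by
    intro h1
    have hbb : b = a := by rwa [div_eq_one_iff_eq ha0] at h1
    apply hkP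
    have h2 : u ^ d = (algebraMap K W a) ^ d := by
      rw [hn, ← two_mul, pow_mul, hu2, ← map_pow, ← map_pow]
      congr 1
      rw [two_mul, ← hn]
      linear_combination hbp + hbb - hcc
    have haW : algebraMap K W a ≠ 0 := (_root_.map_ne_zero _).mpr ha0
    obtain ⟨θ', -, hθ'⟩ := hroot (u / algebraMap K W a) (by
      rw [div_pow, h2, div_self (pow_ne_zero _ haW)])
    refine ⟨θ' * a, ?_⟩
    rw [map_mul, hθ', div_mul_cancel₀ _ haW]
  apply hc3
  refine ⟨n, hn, b / a, by rw [div_pow, hba, div_self had], hη1, (-p) / a ^ 2, a⁻¹,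
    inv_ne_zero ha0, ?_, by rw [inv_inv]; exact hcc⟩
  have e1 : (-p / a ^ 2) ^ n = (-p) ^ n / a ^ d := by
    rw [div_pow, ← pow_mul, two_mul, ← hn]
  have e2 : (-p) ^ n = b - c := by linear_combination hbp
  obtain ⟨k', hk'⟩ : ∃ k', d = k' + 1 := ⟨d - 1, by omega⟩
  rw [e1, e2, hcc, hk', Nat.add_sub_cancel, inv_pow]
  field_simp
  ring

end Pool.Agent.Helper80.QP
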