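import Mathlib
import Pool.Agent.Helper80.QP.Pre2

set_option autoImplicit false

open IsDedekindDomain NumberField Polynomial

namespace Pool.Agent.Helper80.QP

open Pool.Agent.Helper80.UC

/-- integrality and size of preperiodic points -/
lemma north_aux (L : Type) [Field L] [NumberField L] {d : ℕ} (hd : 2 ≤ d) (c : L) {D : ℤ}
    (hD0 : D ≠ 0) (hD : IsIntegral ℤ ((D : L) * c)) {x : L} (hx : Pre (fun z => z ^ d + c) x) :
    IsIntegral ℤ ((D : L) * x) ∧ ∀ φ : L →+* ℂ, ‖φ x‖ ≤ 1 + ‖φ c‖ := by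
  have hDK : (D : L) ≠ 0 := by exact_mod_cast hD0
  have hx' : Pre (fc (fun z : L => z) d c) x := hx
  refine ⟨?_, ?_⟩
  · rcases eq_or_ne x 0 with h0 | h0
    · subst h0; simp only [mul_zero]; exact isIntegral_zero
    have hv : ∀ v : Pl L, v.valuation L ((D : L) * x) ≤ 1 := by
      intro v
      rw [← mem_A]
      apply mem_A_of
      rw [o_mul v hDK h0]
      have hDo : 0 ≤ o v (D : L) := o_nonneg v (intCast_mem _ D)
      by_cases hc : c ∈ A v
      · have := o_nonneg v (good_int (GH_id v) le_rfl hd hc hx')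
        omega
      · obtain ⟨hc0, hc'⟩ := not_mem_A v hc
        have h1 := (bad_val (GH_id v) le_rfl hd hc' hx').2
        have hneg := bad_neg (GH_id v) le_rfl hd hc' hx'
        have hDc : 0 ≤ o v ((D : L) * c) := by
          apply o_nonneg
          rw [mem_A]
          exact v.valuation_le_one (⟨_, hD⟩ : 𝓞 L)
        rw [o_mul v hDK hc0] at hDc
        have hd' : (2 : ℤ) ≤ d := by exact_mod_cast hd
        push_cast at h1
        nlinarith
    obtain ⟨z, hz⟩ := HeightOneSpectrum.mem_integers_of_valuation_le_one L _ hv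
    show IsIntegral ℤ ((D : L) * x)
    rw [← hz]
    exact z.2
  · intro φ
    by_contra hcon
    push Not at hcon
    refine not_pre' (f := fun z : ℂ => z ^ d + φ c) (fun z => 1 + ‖φ c‖ < ‖z‖) (fun z => ‖z‖) ?_
      hcon (hx.push φ (by intro z; simp))
    intro z hz
    have h1 : ‖z‖ ^ d - ‖φ c‖ ≤ ‖z ^ d + φ c‖ := by
      have := norm_sub_norm_le (z ^ d) (-(φ c))
      rw [norm_pow, norm_neg, sub_neg_eq_add] at this
      exact this
    have hc0 := norm_nonneg (φ c)
    have h2 : ‖z‖ ^ 2 ≤ ‖z‖ ^ d := pow_le_pow_right₀ (by linarith) hd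
    have h3 : ‖z‖ < ‖z ^ d + φ c‖ := by nlinarith
    exact ⟨hz.trans h3, h3⟩

/-- Northcott for points of bounded degree -/
theorem northr (K W : Type) [Field K] [NumberField K] [Field W] [Algebra K W] {d : ℕ} (hd : 2 ≤ d)
    (r : ℕ) (c : K) :
    {x : W | IsIntegral K x ∧ (minpoly K x).natDegree ≤ r ∧
      Pre (fun z => z ^ d + algebraMap K W c) x}.Finite := by
  classical
  have hCZ : CharZero W := charZero_of_injective_algebraMap (algebraMap K W).injective
  obtain ⟨D, hD0, hD⟩ : ∃ D : ℤ, D ≠ 0 ∧ IsIntegral ℤ (D * c) := by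
    have halg : IsAlgebraic ℤ c :=
      (IsFractionRing.isAlgebraic_iff ℤ ℚ K).mpr (Algebra.IsAlgebraic.isAlgebraic c)
    obtain ⟨D, hD0, hD⟩ := halg.exists_integral_multiple
    refine ⟨D, hD0, ?_⟩
    rwa [zsmul_eq_mul] at hD
  set B : ℝ := ∑ φ : K →+* ℂ, ‖φ D‖ * (1 + ‖φ c‖) with hB
  set N : ℕ := Module.finrank ℚ K * r with hN
  set C : ℕ := Nat.ceil (max B 1 ^ N * (2 : ℝ) ^ N) with hC
  have hfin := bUnion_roots_finite (algebraMap ℤ W) N (Set.finite_Icc (-C : ℤ) C)
  have hDW : (D : W) ≠ 0 := by exact_mod_cast hD0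
  have hinj : Set.InjOn (fun x : W => (D : W) * x) {x : W | IsIntegral K x ∧
      (minpoly K x).natDegree ≤ r ∧ Pre (fun z => z ^ d + algebraMap K W c) x} := by
    intro x _ y _ h
    exact mul_left_cancel₀ hDW h
  refine Set.Finite.of_finite_image (hfin.subset ?_) hinj
  rintro _ ⟨x, ⟨hxi, hxr, hpx⟩, rfl⟩
  let L := IntermediateField.adjoin K {x}
  have hFD : FiniteDimensional K L := IntermediateField.adjoin.finiteDimensional hxi
  have hNF : NumberField L := NumberField.of_module_finite K L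
  have hxL : x ∈ L := IntermediateField.mem_adjoin_simple_self K x
  have hmapL : ∀ z : L, algebraMap L W ((fun z => z ^ d + algebraMap K L c) z) =
      (fun z => z ^ d + algebraMap K W c) (algebraMap L W z) := by
    intro z
    simp only [map_add, map_pow]
    rw [← IsScalarTower.algebraMap_apply K L W]
  have hpL : Pre (fun z => z ^ d + algebraMap K L c) (⟨x, hxL⟩ : L) :=
    Pre.pull (algebraMap L W) (algebraMap L W).injective hmapL hpx
  have hDL : IsIntegral ℤ ((D : L) * algebraMap K L c) := by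
    have := map_isIntegral_int (algebraMap K L) hD
    rwa [map_mul, map_intCast] at this
  obtain ⟨h1, h2⟩ := north_aux L hd (algebraMap K L c) hD0 hDL hpL
  set z : L := (D : L) * ⟨x, hxL⟩ with hz
  have hzB : ∀ φ : L →+* ℂ, ‖φ z‖ ≤ B := by
    intro φ
    rw [hz, map_mul, norm_mul]
    have h3 := h2 φ
    calc ‖φ (D : L)‖ * ‖φ ⟨x, hxL⟩‖ ≤ ‖φ (D : L)‖ * (1 + ‖φ (algebraMap K L c)‖) :=
          mul_le_mul_of_nonneg_left h3 (norm_nonneg _)
      _ = ‖(φ.comp (algebraMap K L)) (D : K)‖ * (1 + ‖(φ.comp (algebraMap K L)) c‖) := by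
          rw [RingHom.comp_apply, RingHom.comp_apply, map_intCast (algebraMap K L)]
      _ ≤ B := by
        rw [hB]
        exact Finset.single_le_sum (f := fun φ : K →+* ℂ => ‖φ D‖ * (1 + ‖φ c‖))
          (fun i _ => mul_nonneg (norm_nonneg _) (by positivity)) (Finset.mem_univ _)
  have hdeg : Module.finrank ℚ L ≤ N := by
    rw [hN, ← Module.finrank_mul_finrank ℚ K L, IntermediateField.adjoin.finrank hxi]
    exact Nat.mul_le_mul_left _ hxr
  have h_map := minpoly.isIntegrallyClosed_eq_field_fractions' ℚ h1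
  simp only [Set.mem_iUnion]
  refine ⟨minpoly ℤ z, ⟨?_, fun i => ?_⟩, ?_⟩
  · rw [← (minpoly.monic h1).natDegree_map (algebraMap ℤ ℚ), ← h_map]
    exact (minpoly.natDegree_le z).trans hdeg
  · rw [Set.mem_Icc, ← abs_le, ← @Int.cast_le ℝ]
    have hM1 : (1 : ℝ) ≤ max B 1 := le_max_right _ _
    have e1 : ((|(minpoly ℤ z).coeff i| : ℤ) : ℝ) = ‖(minpoly ℚ z).coeff i‖ := by
      rw [h_map, coeff_map, eq_intCast, Int.norm_cast_rat, Int.norm_eq_abs, Int.cast_abs]
    have e2 := NumberField.Embeddings.coeff_bdd_of_norm_le hzB i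
    rw [e1]
    refine e2.trans (le_trans ?_ (Nat.le_ceil _))
    refine mul_le_mul (pow_le_pow_right₀ hM1 hdeg) ?_ (by positivity) (by positivity)
    calc (((Module.finrank ℚ L).choose (Module.finrank ℚ L / 2) : ℕ) : ℝ)
        ≤ ((2 ^ Module.finrank ℚ L : ℕ) : ℝ) := by
          exact_mod_cast Nat.choose_le_two_pow _ _
      _ ≤ (2 : ℝ) ^ N := by
          push_cast
          exact pow_le_pow_right₀ (by norm_num) hdeg
  · rw [Finset.mem_coe, Multiset.mem_toFinset, mem_roots']
    refine ⟨?_, ?_⟩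
    · rw [Ne, Polynomial.map_eq_zero_iff (algebraMap ℤ W).injective_int]
      exact minpoly.ne_zero h1
    · have h4 : Polynomial.aeval z (minpoly ℤ z) = 0 := minpoly.aeval ℤ z
      have h5 := congrArg (algebraMap L W) h4
      rw [map_zero, Polynomial.aeval_def, Polynomial.hom_eval₂] at h5
      have h6 : algebraMap L W z = (D : W) * x := by
        rw [hz, map_mul, map_intCast]
        rfl
      rw [h6] at h5
      show Polynomial.eval ((D : W) * x) ((minpoly ℤ z).map (algebraMap ℤ W)) = 0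
      rw [Polynomial.eval_map]
      have h7 : (algebraMap L W).comp (algebraMap ℤ L) = algebraMap ℤ W := RingHom.ext_int _ _
      rw [h7] at h5
      exact h5

end Pool.Agent.Helper80.QP
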