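import Mathlib
import Pool.Agent.Helper80.QP.North

set_option autoImplicit false

open IsDedekindDomain NumberField Polynomial

namespace Pool.Agent.Helper80.QP

open Pool.Agent.Helper80.UC

section lin

variable {K W : Type} [Field K] [Field W] [Algebra K W]

/-- the map `z ↦ τ z^d + c` over `W` -/
def Ft (K : Type) {W : Type} [Field K] [Field W] [Algebra K W] (d : ℕ) (τ c : K) : W → W :=
  fun z => algebraMap K W τ * z ^ d + algebraMap K W c

lemma LinP.iterF {x y u w : W} {s p : K} (hc : Cj x y s p) (h : LinP K x y u w) (d : ℕ) (τ c : K)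
    (n : ℕ) : LinP K x y ((Ft K d τ c)^[n] u) ((Ft K d τ c)^[n] w) := by
  induction n with
  | zero => simpa using h
  | succ n ih =>
    rw [Function.iterate_succ_apply', Function.iterate_succ_apply']
    exact ((LinP.const x y τ).mul hc (ih.pow hc d)).add (LinP.const x y c)

lemma Cj.perF {x y : W} {s p : K} (hc : Cj x y s p) {d : ℕ} {τ c : K}
    (hx : Per (Ft K d τ c) x) (hxK : x ∉ Set.range (algebraMap K W)) : Per (Ft K d τ c) y := by
  obtain ⟨n, hn, h⟩ := hx
  refine ⟨n, hn, ?_⟩
  have h1 := (LinP.refl (K := K) x y).iterF hc d τ c n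
  rw [h] at h1
  exact h1.eq_of_eq hxK

lemma Deg2.iterF {x : W} (hx : Deg2 K x) (d : ℕ) (τ c : K) (n : ℕ) :
    Deg2 K ((Ft K d τ c)^[n] x) := by
  obtain ⟨y, s, p, hcj⟩ := hx.cj
  obtain ⟨s', p', h⟩ := ((LinP.refl (K := K) x y).iterF hcj d τ c n).cj hcj
  exact h.deg2

lemma Deg2.minpoly {x : W} (hx : Deg2 K x) : IsIntegral K x ∧ (minpoly K x).natDegree ≤ 2 := by
  obtain ⟨s, p, h⟩ := hx
  have hm : (X ^ 2 - C s * X + C p : K[X]).Monic := by monicity!
  have ha : Polynomial.aeval x (X ^ 2 - C s * X + C p : K[X]) = 0 := by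
    simpa using h
  refine ⟨⟨_, hm, by rw [← Polynomial.aeval_def]; exact ha⟩, ?_⟩
  have h1 := Polynomial.natDegree_le_of_dvd (minpoly.dvd K x ha) hm.ne_zero
  refine h1.trans ?_
  compute_degree

lemma deg2_of {x : W} (hi : IsIntegral K x) (hx : (minpoly K x).natDegree ≤ 2) : Deg2 K x := by
  have h1 := Polynomial.eq_quadratic_of_degree_le_two (p := minpoly K x)
    (Polynomial.natDegree_le_iff_degree_le.mp hx)
  have h2 := minpoly.aeval K x
  rw [h1] at h2
  simp only [map_add, map_mul, aeval_C, map_pow, aeval_X] at h2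
  have hm := minpoly.monic hi
  have hpos := minpoly.natDegree_pos hi
  rcases (show (minpoly K x).natDegree = 1 ∨ (minpoly K x).natDegree = 2 by omega) with h | h
  · have e2 : (minpoly K x).coeff 2 = 0 := coeff_eq_zero_of_natDegree_lt (by omega)
    have e1 : (minpoly K x).coeff 1 = 1 := by
      have := hm.coeff_natDegree
      rwa [h] at this
    rw [e1, e2] at h2
    refine ⟨-(minpoly K x).coeff 0, 0, ?_⟩
    simp only [map_zero, map_one, map_neg, zero_mul, one_mul, zero_add] at h2 ⊢
    linear_combination x * h2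
  · have e2 : (minpoly K x).coeff 2 = 1 := by
      have := hm.coeff_natDegree
      rwa [h] at this
    rw [e2] at h2
    refine ⟨-(minpoly K x).coeff 1, (minpoly K x).coeff 0, ?_⟩
    simp only [map_one, map_neg, one_mul] at h2 ⊢
    linear_combination h2

end lin

/-- structure theorem and finiteness -/
theorem main2 (K W : Type) [Field K] [NumberField K] [Field W] [IsAlgClosed W] [Algebra K W]
    {d : ℕ} (hd : 6 ≤ d) {τ : K} (hτ : τ ≠ 0) :
    (∃ E : Set K, E.Finite ∧ ∀ c ∉ E, (∀ x : W, Deg2 K x → ¬ Pre (Ft K d τ c) x) ∨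
      ∃ a : K, τ * a ^ d + c = a ∧ ∀ x : W, Deg2 K x →
        (Pre (Ft K d τ c) x ↔ x ^ d = algebraMap K W a ^ d)) ∧
    ∀ c : K, {x : W | Deg2 K x ∧ Pre (Ft K d τ c) x}.Finite := by
  classical
  have hCZ : CharZero W := charZero_of_injective_algebraMap (algebraMap K W).injective
  have hNZ : NeZero (d : W) := ⟨by exact_mod_cast (by omega : d ≠ 0)⟩
  obtain ⟨ζ, hζ⟩ := HasEnoughRootsOfUnity.exists_primitiveRoot W d
  obtain ⟨lam, hlam⟩ := IsAlgClosed.exists_pow_nat_eq (algebraMap K W τ) (n := d - 1) (by omega)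
  have hτW : algebraMap K W τ ≠ 0 := (_root_.map_ne_zero _).mpr hτ
  have hlam0 : lam ≠ 0 := by
    rintro rfl
    rw [zero_pow (by omega)] at hlam
    exact hτW hlam.symm
  have hlamd : lam ^ d = lam * algebraMap K W τ := by
    rw [← hlam, ← pow_succ']
    congr 1
    omega
  have hint : ∀ t ∈ ({ζ, lam} : Set W), IsIntegral K t := by
    intro t ht
    simp only [Set.mem_insert_iff, Set.mem_singleton_iff] at ht
    rcases ht with rfl | rfl
    · exact (hζ.isIntegral (by omega)).tower_top
    · refine IsIntegral.of_pow (n := d - 1) (by omega) ?_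
      rw [hlam]
      exact isIntegral_algebraMap
  let K1 := IntermediateField.adjoin K ({ζ, lam} : Set W)
  have hfs : Finite ({ζ, lam} : Set W) := (Set.toFinite _)
  have hFD : FiniteDimensional K K1 := IntermediateField.finiteDimensional_adjoin hint
  have hNF : NumberField K1 := NumberField.of_module_finite K K1
  have hζK : ζ ∈ K1 := IntermediateField.subset_adjoin K _ (by simp)
  have hlK : lam ∈ K1 := IntermediateField.subset_adjoin K _ (by simp)
  have hζ1 : IsPrimitiveRoot (⟨ζ, hζK⟩ : K1) d :=
    IsPrimitiveRoot.of_map_of_injective (f := algebraMap K1 W) hζ (algebraMap K1 W).injective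
  set l1 : K1 := ⟨lam, hlK⟩ with hl1
  have hl1W : algebraMap K1 W l1 = lam := rfl
  have hl10 : l1 ≠ 0 := by
    intro h
    apply hlam0
    rw [← hl1W, h, map_zero]
  have htow : ∀ a : K, algebraMap K1 W (algebraMap K K1 a) = algebraMap K W a := fun a =>
    (IsScalarTower.algebraMap_apply K K1 W a).symm
  have hsc : ∀ (c : K) (x : W), lam * (Ft K d τ c x) =
      (fun z => z ^ d + algebraMap K1 W (l1 * algebraMap K K1 c)) (lam * x) := by
    intro c x
    simp only [Ft, map_mul, htow, hl1W]
    rw [mul_pow, hlamd]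
    ring
  have hD : ∀ x : W, Deg2 K x → Deg2 K1 (lam * x) := by
    rintro x ⟨s, p, h⟩
    refine ⟨l1 * algebraMap K K1 s, l1 ^ 2 * algebraMap K K1 p, ?_⟩
    simp only [map_mul, map_pow, htow, hl1W]
    linear_combination lam ^ 2 * h
  refine ⟨?_, ?_⟩
  · obtain ⟨E1, hE1, H1⟩ := pre2 K1 W hd hζ1
    obtain ⟨E2, hE2, H2⟩ := exc_struct K1 (d := d) (by omega)
    have hinj : Function.Injective (fun c : K => l1 * algebraMap K K1 c) := by
      intro a b hab
      exact (algebraMap K K1).injective (mul_left_cancel₀ hl10 hab)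
    refine ⟨(fun c : K => l1 * algebraMap K K1 c) ⁻¹' (E1 ∪ E2),
      (hE1.union hE2).preimage hinj.injOn, ?_⟩
    intro c hc
    simp only [Set.mem_preimage, Set.mem_union, not_or] at hc
    obtain ⟨hc1, hc2⟩ := hc
    set c1 : K1 := l1 * algebraMap K K1 c with hc1def
    set g : W → W := fun z => z ^ d + algebraMap K1 W c1 with hg
    have hsc' : ∀ x : W, (fun x => lam * x) (Ft K d τ c x) = g ((fun x => lam * x) x) := hsc c
    by_cases hex : ∃ x : W, Deg2 K x ∧ Pre (Ft K d τ c) x
    · right
      obtain ⟨x0, hx0, hp0⟩ := hex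
      obtain ⟨n, hn⟩ := hp0.ev
      set z0 := (Ft K d τ c)^[n] x0 with hz0
      have hz0D : Deg2 K z0 := hx0.iterF d τ c n
      have hg1 : ∀ z : K1, algebraMap K1 W ((fun z => z ^ d + c1) z) = g (algebraMap K1 W z) := by
        intro z
        simp only [hg, map_add, map_pow]
      -- all Deg2 preperiodic points
      have hall : ∀ x : W, Deg2 K x → Pre (Ft K d τ c) x → ∃ b : K1, algebraMap K1 W b = lam * x ∧
          Pre (fun z => z ^ d + c1) b := by
        intro x hx hpx
        have hpg : Pre g (lam * x) := hpx.push _ hsc'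
        obtain ⟨b, hb⟩ := H1 c1 hc1 _ (hD x hx) hpg
        refine ⟨b, hb, Pre.pull (algebraMap K1 W) (algebraMap K1 W).injective hg1 ?_⟩
        rw [hb]; exact hpg
      rcases H2 c1 hc2 with h | ⟨a1, ha1, hset⟩
      · obtain ⟨b, hb, hpb⟩ := hall z0 hz0D hn.pre
        have : b ∈ {x : K1 | Pre (fun z => z ^ d + c1) x} := hpb
        rw [h] at this
        exact absurd this (Set.notMem_empty _)
      have hb1 : ∀ b : K1, Pre (fun z => z ^ d + c1) b → b ^ d = a1 ^ d := by
        intro b hb
        have : b ∈ {x : K1 | Pre (fun z => z ^ d + c1) x} := hb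
        rw [hset] at this
        exact this
      have ha1g : g (algebraMap K1 W a1) = algebraMap K1 W a1 := by
        rw [← hg1]
        exact congrArg _ ha1
      have ha1P : Per g (algebraMap K1 W a1) := ⟨1, one_pos, by simpa using ha1g⟩
      -- periodic Deg2 points
      have hper : ∀ x : W, Deg2 K x → Per (Ft K d τ c) x → lam * x = algebraMap K1 W a1 := by
        intro x hx hpx
        obtain ⟨b, hb, hpb⟩ := hall x hx hpx.pre
        have hpg : Per g (lam * x) := hpx.push _ hsc'
        refine hpg.inj ha1P ?_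
        rw [← hb]
        simp only [hg]
        rw [← map_pow, ← map_pow, hb1 b hpb]
      have hz0K : z0 ∈ Set.range (algebraMap K W) := by
        by_contra hzK
        obtain ⟨y, s, p, hcj⟩ := hz0D.cj
        have hy := hcj.perF hn hzK
        apply hcj.ne hzK
        apply mul_left_cancel₀ hlam0
        rw [hper z0 hz0D hn, hper y hcj.symm.deg2 hy]
      obtain ⟨a, ha⟩ := hz0K
      have hla : lam * algebraMap K W a = algebraMap K1 W a1 := by rw [ha]; exact hper z0 hz0D hn
      have hfix : Ft K d τ c (algebraMap K W a) = algebraMap K W a := by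
        apply mul_left_cancel₀ hlam0
        rw [hsc c, hla]
        exact ha1g
      refine ⟨a, ?_, ?_⟩
      · apply (algebraMap K W).injective
        rw [map_add, map_mul, map_pow]
        exact hfix
      · intro x hx
        constructor
        · intro hpx
          obtain ⟨b, hb, hpb⟩ := hall x hx hpx
          have h1 := congrArg (algebraMap K1 W) (hb1 b hpb)
          rw [map_pow, map_pow, hb, ← hla, mul_pow, mul_pow] at h1
          exact mul_left_cancel₀ (pow_ne_zero _ hlam0) h1
        · intro hxa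
          have h1 : Ft K d τ c x = algebraMap K W a := by
            rw [← hfix]
            simp only [Ft]
            rw [hxa]
          refine ⟨1, 2, by norm_num, ?_⟩
          rw [Function.iterate_succ_apply, Function.iterate_succ_apply, Function.iterate_succ_apply,
            Function.iterate_zero, id_eq, id_eq, h1, hfix]
    · left
      intro x hx hpx
      exact hex ⟨x, hx, hpx⟩
  · intro c
    have hN := northr K1 W (d := d) (by omega) 2 (l1 * algebraMap K K1 c)
    refine Set.Finite.of_finite_image (f := fun x => lam * x) (hN.subset ?_)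
      (fun a _ b _ hab => mul_left_cancel₀ hlam0 hab)
    rintro _ ⟨x, ⟨hx, hpx⟩, rfl⟩
    obtain ⟨h1, h2⟩ := (hD x hx).minpoly
    exact ⟨h1, h2, hpx.push (fun x => lam * x) (hsc c)⟩

/-- the uniform bound -/
theorem bound2 (K W : Type) [Field K] [NumberField K] [Field W] [IsAlgClosed W] [Algebra K W]
    {d : ℕ} (hd : 6 ≤ d) {τ : K} (hτ : τ ≠ 0) :
    ∃ B : ℕ, ∀ c : K, {x : W | Deg2 K x ∧ Pre (Ft K d τ c) x}.encard ≤ B := by
  classical
  obtain ⟨⟨E, hE, H⟩, HN⟩ := main2 K W hd hτ
  refine ⟨max (∑ c ∈ hE.toFinset, {x : W | Deg2 K x ∧ Pre (Ft K d τ c) x}.ncard) d, fun c => ?_⟩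
  by_cases hc : c ∈ E
  · rw [← (HN c).cast_ncard_eq]
    have : c ∈ hE.toFinset := hE.mem_toFinset.mpr hc
    have h1 := Finset.single_le_sum
      (f := fun c => {x : W | Deg2 K x ∧ Pre (Ft K d τ c) x}.ncard) (fun _ _ => Nat.zero_le _) this
    exact_mod_cast h1.trans (le_max_left _ _)
  · have hle : {x : W | Deg2 K x ∧ Pre (Ft K d τ c) x}.encard ≤ (d : ℕ∞) := by
      rcases H c hc with h | ⟨a, ha, h⟩
      · have : {x : W | Deg2 K x ∧ Pre (Ft K d τ c) x} = ∅ := by
          ext x
          simp only [Set.mem_ofPred_eq, Set.mem_empty_iff_false, iff_false, not_and]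
          exact h x
        rw [this]; simp
      · have hsub : {x : W | Deg2 K x ∧ Pre (Ft K d τ c) x} ⊆
            ((nthRootsFinset d (algebraMap K W a ^ d) : Finset W) : Set W) := by
          rintro x ⟨hx, hpx⟩
          rw [Finset.mem_coe, Polynomial.mem_nthRootsFinset (by omega)]
          exact (h x hx).mp hpx
        refine (Set.encard_le_encard hsub).trans ?_
        rw [Set.encard_coe_eq_coe_finsetCard]
        have : (nthRootsFinset d (algebraMap K W a ^ d) : Finset W).card ≤ d := by
          rw [nthRootsFinset_def]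
          exact (Multiset.toFinset_card_le _).trans (card_nthRoots _ _)
        exact_mod_cast this
    exact hle.trans (by exact_mod_cast le_max_right _ _)

end Pool.Agent.Helper80.QP
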